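import Mathlib
import Pool.Agent.Helper67.Bump4

/-!
# Separated bumps do not suffice for fractional integrals
-/

set_option autoImplicit false

open MeasureTheory
open scoped ENNReal

namespace Pool.Agent.Results.MP_d895c5_an.TestingFails

/-- A weight: a nonnegative locally integrable function on `ℝ^d`. -/
def IsWeight {d : ℕ} (w : (Fin d → ℝ) → ℝ) : Prop :=
  (∀ x, 0 ≤ w x) ∧ LocallyIntegrable w volume

/-- A Young function: convex and increasing on `[0, ∞)`, `Φ 0 = 0`, `Φ(t)/t → ∞`. -/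
def IsYoung (Φ : ℝ → ℝ) : Prop :=
  ConvexOn ℝ (Set.Ici 0) Φ ∧ MonotoneOn Φ (Set.Ici 0) ∧ Φ 0 = 0 ∧
    Filter.Tendsto (fun t => Φ t / t) Filter.atTop Filter.atTop

/-- The complementary function `sup_{t ≥ 0} (s t - Φ t)`. -/
noncomputable def complementary (Φ : ℝ → ℝ) (s : ℝ) : ℝ :=
  ⨆ t : Set.Ici (0 : ℝ), (s * (t : ℝ) - Φ t)

/-- The class `B_r`: `∫_1^∞ A(t) t^(-r) dt/t < ∞`. -/
def BClass (r : ℝ) (A : ℝ → ℝ) : Prop :=
  ∫⁻ t in Set.Ioi (1 : ℝ), ENNReal.ofReal (A t * t ^ (-r) / t) < ⊤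

/-- Cubes with sides parallel to the axes. -/
def IsCube {d : ℕ} (Q : Set (Fin d → ℝ)) : Prop :=
  ∃ (a : Fin d → ℝ) (ℓ : ℝ), 0 < ℓ ∧ Q = Set.univ.pi fun i => Set.Ico (a i) (a i + ℓ)

/-- The average `⟨w⟩_Q`. -/
noncomputable def avg {d : ℕ} (w : (Fin d → ℝ) → ℝ) (Q : Set (Fin d → ℝ)) : ℝ≥0∞ :=
  (∫⁻ x in Q, ENNReal.ofReal (w x)) / volume Q

/-- The Luxemburg average `‖f‖_{Φ,Q}`: the infimum of the `l > 0` with `|Q|⁻¹ ∫_Q Φ(|f|/l) ≤ 1`. -/
noncomputable def lux {d : ℕ} (Φ : ℝ → ℝ) (f : (Fin d → ℝ) → ℝ) (Q : Set (Fin d → ℝ)) : ℝ≥0∞ :=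
  sInf ((fun l : ℝ => ENNReal.ofReal l) ''
    {l : ℝ | 0 < l ∧ (∫⁻ x in Q, ENNReal.ofReal (Φ (|f x| / l))) / volume Q ≤ 1})

/-- `K₁ = sup_Q ‖σ^(1/p')‖_{Φ,Q} ⟨u⟩_Q^(1/p) |Q|^(α/d)` -/
noncomputable def K₁ (d : ℕ) (α p : ℝ) (u σ : (Fin d → ℝ) → ℝ) (Φ : ℝ → ℝ) : ℝ≥0∞ :=
  ⨆ (Q : Set (Fin d → ℝ)) (_ : IsCube Q),
    lux Φ (fun x => σ x ^ (1 - 1 / p)) Q * avg u Q ^ (1 / p) * volume Q ^ (α / (d : ℝ))

/-- `K₂ = sup_Q ⟨σ⟩_Q^(1/p') ‖u^(1/p)‖_{Ψ,Q} |Q|^(α/d)` -/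
noncomputable def K₂ (d : ℕ) (α p : ℝ) (u σ : (Fin d → ℝ) → ℝ) (Ψ : ℝ → ℝ) : ℝ≥0∞ :=
  ⨆ (Q : Set (Fin d → ℝ)) (_ : IsCube Q),
    avg σ Q ^ (1 - 1 / p) * lux Ψ (fun x => u x ^ (1 / p)) Q * volume Q ^ (α / (d : ℝ))

/-- The fractional integral `I_α g(x) = ∫ g(y) |x - y|^(α - d) dy` of a nonnegative function. -/
noncomputable def fracInt (d : ℕ) (α : ℝ) (g : (Fin d → ℝ) → ℝ≥0∞) (x : Fin d → ℝ) : ℝ≥0∞ :=
  ∫⁻ y, g y * ENNReal.ofReal (Real.sqrt (∑ i, (x i - y i) ^ 2) ^ (α - (d : ℝ)))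

/-- The two-weight bound `‖I_α(f σ)‖_{L^p(u)}^p ≤ C ‖f‖_{L^p(σ)}^p` for nonnegative `f`. -/
def TwoWeightBound (d : ℕ) (α p : ℝ) (u σ : (Fin d → ℝ) → ℝ) (C : ℝ) : Prop :=
  ∀ f : (Fin d → ℝ) → ℝ≥0∞, Measurable f →
    ∫⁻ x, fracInt d α (fun y => f y * ENNReal.ofReal (σ y)) x ^ p * ENNReal.ofReal (u x)
      ≤ ENNReal.ofReal C * ∫⁻ y, f y ^ p * ENNReal.ofReal (σ y)

/-- The log bump `t² (1 + log (1 + t))^(3/2)`. -/
noncomputable def logBump (t : ℝ) : ℝ := t ^ 2 * (1 + Real.log (1 + t)) ^ (3 / 2 : ℝ)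

/-- For `d = 2`, `α = 1`, `p = 2` and the Young function `Φ(t) = t² (1 + log (1 + t))^(3/2)`, whose
complementary function is in `B₂`, there is ONE weight `w` on the plane such that `K₁, K₂ ≤ 1` for
`u = σ = w`, `Φ = Ψ`, but no two-weight bound holds; not even the testing inequality
`∫_A (I₁(1_A w))² w ≤ C ∫_A w` for bounded measurable sets `A`. -/
theorem result :
    IsYoung logBump ∧ BClass 2 (complementary logBump) ∧
    ∃ w : (Fin 2 → ℝ) → ℝ, IsWeight w ∧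
      K₁ 2 1 2 w w logBump ≤ 1 ∧ K₂ 2 1 2 w w logBump ≤ 1 ∧
      (∀ C : ℝ, ¬ TwoWeightBound 2 1 2 w w C) ∧
      ∀ C : ℝ, ∃ A : Set (Fin 2 → ℝ), MeasurableSet A ∧ Bornology.IsBounded A ∧
        ∫⁻ x in A, ENNReal.ofReal (w x) < ⊤ ∧
        ENNReal.ofReal C * ∫⁻ x in A, ENNReal.ofReal (w x) <
          ∫⁻ x in A, fracInt 2 1 (A.indicator fun y => ENNReal.ofReal (w y)) x ^ (2 : ℝ) *
            ENNReal.ofReal (w x) := by
  have hlog : logBump = Pool.Agent.Helper67.Bump.Phi := by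
    funext t
    rfl
  have hlux : ∀ (f : (Fin 2 → ℝ) → ℝ) (a : Fin 2 → ℝ) (s : ℝ), 0 < s → (∀ x, 0 ≤ f x) →
      lux logBump f (Set.univ.pi fun i => Set.Ico (a i) (a i + s)) =
      sInf ((fun l : ℝ => ENNReal.ofReal l) ''
          {l : ℝ | 0 < l ∧ ∫⁻ x in Set.univ.pi (fun i => Set.Ico (a i) (a i + s)),
              ENNReal.ofReal (Pool.Agent.Helper67.Bump.Phi (f x / l)) ≤
              volume (Set.univ.pi (fun i => Set.Ico (a i) (a i + s)))}) := by
    intro f a s hs hf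
    have hV : volume (Set.univ.pi fun i => Set.Ico (a i) (a i + s)) = ENNReal.ofReal (s ^ 2) :=
      Pool.Agent.Helper67.Bump.Cube_volume a s hs
    have hV0 : volume (Set.univ.pi fun i => Set.Ico (a i) (a i + s)) ≠ 0 := by
      rw [hV]; simp; positivity
    have hVt : volume (Set.univ.pi fun i => Set.Ico (a i) (a i + s)) ≠ ⊤ := by
      rw [hV]; exact ENNReal.ofReal_ne_top
    unfold lux
    congr 2
    ext l
    simp only [Set.mem_ofPred_eq]
    rw [ENNReal.div_le_iff hV0 hVt, one_mul, hlog]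
    simp only [abs_of_nonneg (hf _)]
  have htest : ∀ C : ℝ, ∃ A : Set (Fin 2 → ℝ), MeasurableSet A ∧ Bornology.IsBounded A ∧
        ∫⁻ x in A, ENNReal.ofReal (Pool.Agent.Helper67.Bump.ww x) < ⊤ ∧
        ENNReal.ofReal C * ∫⁻ x in A, ENNReal.ofReal (Pool.Agent.Helper67.Bump.ww x) <
          ∫⁻ x in A, fracInt 2 1 (A.indicator fun y =>
            ENNReal.ofReal (Pool.Agent.Helper67.Bump.ww y)) x ^ (2 : ℝ) *
            ENNReal.ofReal (Pool.Agent.Helper67.Bump.ww x) := by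
    intro C
    obtain ⟨n, hn⟩ := exists_nat_gt (3 * (max C 0 + 1))
    refine ⟨Pool.Agent.Helper67.Bump.RR n, Pool.Agent.Helper67.Bump.RR_measurable n, ?_, ?_, ?_⟩
    · apply Bornology.IsBounded.pi
      intro i
      fin_cases i
      · exact Metric.isBounded_Icc _ _
      · exact Metric.isBounded_Icc _ _
    all_goals
      have hmass : ∫⁻ x in Pool.Agent.Helper67.Bump.RR n,
          ENNReal.ofReal (Pool.Agent.Helper67.Bump.ww x) =
          ENNReal.ofReal (Pool.Agent.Helper67.Bump.mm n) := by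
        rw [setLIntegral_congr_fun (g := fun _ => ENNReal.ofReal (Pool.Agent.Helper67.Bump.cc n))
          (Pool.Agent.Helper67.Bump.RR_measurable n)
          (fun x hx => by simp only [Pool.Agent.Helper67.Bump.ww_of_mem hx])]
        rw [setLIntegral_const, Pool.Agent.Helper67.Bump.RR_volume,
          ← ENNReal.ofReal_mul (Pool.Agent.Helper67.Bump.cc_pos n).le,
          Pool.Agent.Helper67.Bump.cc_mul_ep]
      rw [hmass]
    · exact ENNReal.ofReal_lt_top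
    · set L : ℝ := Pool.Agent.Helper67.Bump.mm n *
        Real.log ((1/2 + Pool.Agent.Helper67.Bump.ep n) / Pool.Agent.Helper67.Bump.ep n) with hL
      have hLlow := Pool.Agent.Helper67.Bump.mm_log_lower n
      rw [← hL] at hLlow
      have hm := Pool.Agent.Helper67.Bump.mm_pos n
      have hlow : ENNReal.ofReal L ^ (2:ℝ) * ENNReal.ofReal (Pool.Agent.Helper67.Bump.mm n) ≤
          ∫⁻ x in Pool.Agent.Helper67.Bump.RR n, fracInt 2 1
            ((Pool.Agent.Helper67.Bump.RR n).indicator fun y =>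
            ENNReal.ofReal (Pool.Agent.Helper67.Bump.ww y)) x ^ (2 : ℝ) *
            ENNReal.ofReal (Pool.Agent.Helper67.Bump.ww x) := by
        rw [← hmass, ← lintegral_const_mul' _ _ (by
          exact ENNReal.rpow_ne_top_of_nonneg (by norm_num) ENNReal.ofReal_ne_top)]
        apply setLIntegral_mono_ae' (Pool.Agent.Helper67.Bump.RR_measurable n)
        filter_upwards with x hx
        gcongr
        refine (Pool.Agent.Helper67.Bump.potential_lower n x hx).trans (le_of_eq ?_)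
        unfold fracInt
        apply lintegral_congr
        intro y
        by_cases hy : y ∈ Pool.Agent.Helper67.Bump.RR n
        · rw [Set.indicator_of_mem hy, Set.indicator_of_mem hy, one_mul]
        · rw [Set.indicator_of_notMem hy, Set.indicator_of_notMem hy, zero_mul, zero_mul]
      refine lt_of_lt_of_le ?_ hlow
      have hL0 : 0 ≤ L := le_trans (by positivity) hLlow
      rw [ENNReal.ofReal_rpow_of_nonneg hL0 (by norm_num), Real.rpow_two]
      have hC : C < L ^ 2 := by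
        have hM : 0 ≤ max C 0 := le_max_right _ _
        have hM2 : C ≤ max C 0 := le_max_left _ _
        have h1 : max C 0 + 1 < ((n:ℝ) + 1) / 3 := by linarith
        nlinarith
      have hL2 : 0 < L ^ 2 := by
        have : 0 < L := lt_of_lt_of_le (by positivity) hLlow
        positivity
      have hmne : ENNReal.ofReal (Pool.Agent.Helper67.Bump.mm n) ≠ 0 := by simpa using hm
      exact (ENNReal.mul_lt_mul_iff_left hmne ENNReal.ofReal_ne_top).2
        ((ENNReal.ofReal_lt_ofReal_iff hL2).2 hC)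
  refine ⟨?_, ?_, Pool.Agent.Helper67.Bump.ww,
    ⟨Pool.Agent.Helper67.Bump.ww_nonneg, Pool.Agent.Helper67.Bump.ww_locallyIntegrable⟩,
    ?_, ?_, ?_, htest⟩
  · rw [hlog]
    exact ⟨Pool.Agent.Helper67.Bump.Phi_convexOn, Pool.Agent.Helper67.Bump.Phi_monotoneOn,
      Pool.Agent.Helper67.Bump.Phi_zero, Pool.Agent.Helper67.Bump.Phi_div_tendsto⟩
  · rw [hlog]
    exact Pool.Agent.Helper67.Bump.conj_lintegral
  · refine iSup₂_le ?_
    rintro Q ⟨a, s, hs, rfl⟩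
    rw [hlux _ a s hs (fun x => Real.rpow_nonneg (Pool.Agent.Helper67.Bump.ww_nonneg x) _)]
    exact Pool.Agent.Helper67.Bump.bump_product a s hs
  · refine iSup₂_le ?_
    rintro Q ⟨a, s, hs, rfl⟩
    rw [hlux _ a s hs (fun x => Real.rpow_nonneg (Pool.Agent.Helper67.Bump.ww_nonneg x) _)]
    exact Pool.Agent.Helper67.Bump.bump_product' a s hs
  · intro C hC
    exact Pool.Agent.Helper67.Bump.no_bound C hC

end Pool.Agent.Results.MP_d895c5_an.TestingFails
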